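import Pool.Agent.H86.S8.Stm
import Pool.Agent.H49.SW.Pos

set_option autoImplicit false

/-!
# Words of length at most eight: one side is zero, the polynomials, the mirror image
-/

namespace Pool.Agent.H89.S8

open Finset MvPolynomial
open Pool.Agent.H35.FC (gf)
open Pool.Agent.H72.OF (os gf_ne_zero)
open Pool.Agent.H49.SW
open Pool.Agent.H86.S8

theorem srev8 (h1 : SRev) : SRev8 := by
  intro α _ _ F G a b e e' M h
  refine ⟨h1 α F G a b e e' M h.toPk, ?_, ?_⟩
  · intro g f w hw
    refine Finset.mem_image.2 ⟨w.reverse, ?_, List.reverse_reverse w⟩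
    refine h.cut _ _ _ fun w1 w2 hw12 he1 => ?_
    have hw' : w = w2.reverse ++ w1.reverse := by
      rw [← List.reverse_append, ← hw12, List.reverse_reverse]
    have h2 := hw w2.reverse w1.reverse hw'
    simp only [List.reverse_append, List.reverse_reverse] at h2
    rcases h.e01' (w2 ++ g.reverse) with h3 | h3
    · exact h3
    · have h4 := h2 h3
      rw [he1] at h4
      norm_num at h4
  · intro x
    rw [add_comm]
    exact h.one x

section
variable {α : Type} [Fintype α] [DecidableEq α] {F G : MvPolynomial α ℤ}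
  {a b : List α → MvPolynomial α ℤ} {e e' : List α → ℤ} {M : List α → List α → Finset (List α)}

theorem coeff_single_mul (p q : MvPolynomial α ℤ) (x : α) :
    coeff (Finsupp.single x 1) (p * q) =
      coeff 0 p * coeff (Finsupp.single x 1) q + coeff (Finsupp.single x 1) p * coeff 0 q := by
  classical
  rw [coeff_mul, Finsupp.antidiagonal_single]
  simp [Finset.Nat.antidiagonal_succ]

theorem le_coeff {P Q : MvPolynomial α ℤ} (hP : constantCoeff P = 1) (hQ : constantCoeff Q = 0)
    (h : ∀ m, 0 ≤ coeff m (P * (1 - os α * Q))) (x : α) :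
    coeff (Finsupp.single x 1) Q ≤ coeff (Finsupp.single x 1) P := by
  have h1 := h (Finsupp.single x 1)
  have hP' : coeff 0 P = 1 := hP
  have hQ' : coeff 0 Q = 0 := hQ
  have hos : coeff 0 (os α : MvPolynomial α ℤ) = 1 := by
    change constantCoeff (os α : MvPolynomial α ℤ) = 1
    simp [os]
  have h0 : coeff 0 (1 - os α * Q : MvPolynomial α ℤ) = 1 := by
    change constantCoeff (1 - os α * Q : MvPolynomial α ℤ) = 1
    rw [map_sub, map_mul, hQ, mul_zero, map_one, sub_zero]
  have h2 : coeff (Finsupp.single x 1) (1 - os α * Q : MvPolynomial α ℤ) =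
      - coeff (Finsupp.single x 1) Q := by
    rw [coeff_sub, coeff_single_mul, hos, hQ', mul_zero, add_zero, one_mul]
    have : coeff (Finsupp.single x 1) (1 : MvPolynomial α ℤ) = 0 := by
      rw [coeff_one, if_neg]
      intro h3
      have := DFunLike.congr_fun h3 x
      simp at this
    rw [this, zero_sub]
  rw [coeff_single_mul, hP', h0, h2] at h1
  linarith

end

theorem shalf (h5 : SDrop) (h6 : SLin) (h7 : SQ3) : SHalf := by
  intro α _ _ F G a b e e' M h hF ⟨g, hg, hga⟩ ⟨f, hb⟩
  have he : e' f = 1 := by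
    have h1 := const_b h.toPk f
    rw [hb, map_zero] at h1
    linarith
  have hG : NN G := by
    intro m
    have h1 := h.gB f m
    rwa [hb, mul_zero, sub_zero, mul_one] at h1
  have hrec : ∑ x : α, X x * b (x :: f) = F - 1 := by
    rw [h.recB f, hb, he, C_1]
    ring
  refine NN.mul ?_ hG
  have hF1 : F = 1 + ∑ x : α, X x * b (x :: f) := by
    rw [hrec]
    ring
  rw [hF1]
  refine NN.one.add (NN.sum fun x _ => (NN.X x).mul ?_)
  have hd2 : (b (x :: f)).totalDegree ≤ 2 :=
    h5 α (fun x => b (x :: f)) (fun x t ht => h.posB t ht _) 2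
      (by rw [hrec]; exact deg_sub_one hF) x
  rcases h.e01' (x :: f) with h0 | h0
  · have hrec2 : ∑ z : α, X z * b (z :: x :: f) = b (x :: f) - 1 := by
      rw [h.recB (x :: f), h0, map_zero, zero_mul, add_zero]
    have h1 : b (x :: f) = 1 + ∑ z : α, X z * b (z :: x :: f) := by
      rw [hrec2]
      ring
    rw [h1]
    exact NN.one.add (NN.sum fun z _ => (NN.X z).mul
      (children h5 h6 h.toPk (by rw [hrec2]; exact deg_sub_one hd2) z))
  · have hag : gf (M g f) = a g := by
      rw [h.nn g f, hb, mul_zero, mul_zero, sub_zero, add_zero]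
    have ha0 : constantCoeff (a g) = 0 := by
      rw [const_a h.toPk, hg]
      norm_num
    have hb0 : constantCoeff (b (x :: f)) = 0 := by
      rw [const_b h.toPk, h0]
      norm_num
    refine h7 α (a g) (b (x :: f)) h.two ?_ hga ha0 ?_ (fun t ht => h.posB t ht _) hb0 hd2
      (fun y => ?_) ?_
    · rw [← hag]
      exact gf_ne_zero (h.ne g f)
    · rw [← hag]
      exact NN.gf _
    · have h1 := le_coeff h.F0 ha0 (h.gA g) y
      have h2 := le_coeff h.G0 hb0 (h.gB (x :: f)) y
      have h3 := h.one y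
      linarith
    · rw [← h.nn g (x :: f)]
      exact NN.gf _

theorem smain (h1 : SRev) (h3 : SGen) (h4 : SDegA) (hH : SHalf) (hB : SBoth) : SMain := by
  intro α _ _ F G a b e e' M h hF hG
  obtain ⟨t, ht, hgen⟩ := h3 α (Set.range a ∪ Set.range b) (h.finA.union h.finB)
  obtain ⟨g, hg, hgd⟩ := h4 α F G a b e e' M h.toPk t ht
    (fun g => hgen _ (Or.inl ⟨_, rfl⟩)) 2 hG
  obtain ⟨f0, hf0, hfd0⟩ := h4 α G F _ _ _ _ _ (h1 α F G a b e e' M h.toPk) t ht
    (fun g => hgen _ (Or.inr ⟨_, rfl⟩)) 1 hF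
  obtain ⟨f, hf⟩ : ∃ f, f = f0.reverse := ⟨_, rfl⟩
  have hf1 : e' f = 1 := by rw [hf]; exact hf0
  have hfd : (b f).totalDegree ≤ 1 := by rw [hf]; exact hfd0
  by_cases hb : ∃ f, b f = 0
  · exact Or.inl (hH α F G a b e e' M h hF ⟨g, hg, hgd⟩ hb)
  by_cases ha : ∃ g, a g = 0
  · obtain ⟨g1, hg1⟩ := ha
    refine Or.inr ⟨g1, f, ?_, hg1, hf1, hfd⟩
    have h2 := const_a h.toPk g1
    rw [hg1, map_zero] at h2
    linarith
  · exact (hB α F G a b e e' M h hF hG (fun g h2 => ha ⟨g, h2⟩) (fun f h2 => hb ⟨f, h2⟩)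
      ⟨g, hg, hgd⟩ ⟨f, hf1, hfd⟩).elim

end Pool.Agent.H89.S8
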